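import Pool.Agent.H73.BA.Targets

/-! Spectral subspaces of symmetric operators and chains of resolvents. -/

set_option autoImplicit false

namespace Pool.Agent.H6.BA

open Pool.Agent.H73.BA

/-- spectral subspaces exist -/
theorem pf_T_SPC : T_SPC := by
  classical
  intro E _ _ _ H hH e d hd
  obtain ⟨n, hn⟩ : ∃ n, Module.finrank ℂ E = n := ⟨_, rfl⟩
  let b := hH.eigenvectorBasis hn
  let lam := hH.eigenvalues hn
  have hb : ∀ i, H (b i) = (lam i : ℂ) • b i := fun i => hH.apply_eigenvectorBasis hn i
  have hc : ∀ i v, inner ℂ (b i) (H v - (e : ℂ) • v) = ((lam i - e : ℝ) : ℂ) * inner ℂ (b i) v := by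
    intro i v
    rw [inner_sub_right, inner_smul_right, ← hH (b i) v, hb, inner_smul_left, Complex.conj_ofReal]
    push_cast
    ring
  have hcn : ∀ i v, ‖inner ℂ (b i) (H v - (e : ℂ) • v)‖ ^ 2 =
      |lam i - e| ^ 2 * ‖inner ℂ (b i) v‖ ^ 2 := by
    intro i v
    rw [hc, norm_mul, Complex.norm_real, Real.norm_eq_abs, mul_pow]
  have hext : ∀ x y : E, (∀ i, inner ℂ (b i) x = inner ℂ (b i) y) → x = y := by
    intro x y hxy
    refine b.repr.injective (PiLp.ext fun i => ?_)
    rw [b.repr_apply_apply, b.repr_apply_apply]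
    exact hxy i
  let W : Submodule ℂ E :=
    { carrier := {v | ∀ i, d < |lam i - e| → inner ℂ (b i) v = 0}
      add_mem' := by
        intro x y hx hy i hi
        rw [inner_add_right, hx i hi, hy i hi, add_zero]
      zero_mem' := fun i _ => inner_zero_right _
      smul_mem' := by
        intro c x hx i hi
        rw [inner_smul_right, hx i hi, mul_zero] }
  have hbW : ∀ i, |lam i - e| ≤ d → b i ∈ W := by
    intro i hi j hj
    have hij : j ≠ i := by
      rintro rfl
      exact absurd hi (not_le.2 hj)
    exact b.orthonormal.2 hij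
  refine ⟨W, ?_, ?_, ?_, ?_⟩
  · intro v hv i hi
    rw [← hH (b i) v, hb, inner_smul_left, hv i hi, mul_zero]
  · intro v hv
    have h : ‖H v - (e : ℂ) • v‖ ^ 2 ≤ (d * ‖v‖) ^ 2 := by
      rw [← b.sum_sq_norm_inner_right, mul_pow, ← b.sum_sq_norm_inner_right v, Finset.mul_sum]
      refine Finset.sum_le_sum fun i _ => ?_
      rw [hcn]
      rcases le_or_gt |lam i - e| d with hi | hi
      · exact mul_le_mul_of_nonneg_right (pow_le_pow_left₀ (abs_nonneg _) hi 2) (by positivity)
      · rw [hv i hi]
        simp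
    exact (pow_le_pow_iff_left₀ (by positivity) (by positivity) two_ne_zero).1 h
  · intro v hv
    have h : (d * ‖v‖) ^ 2 ≤ ‖H v - (e : ℂ) • v‖ ^ 2 := by
      rw [← b.sum_sq_norm_inner_right (H v - (e : ℂ) • v), mul_pow,
        ← b.sum_sq_norm_inner_right v, Finset.mul_sum]
      refine Finset.sum_le_sum fun i _ => ?_
      rw [hcn]
      rcases le_or_gt |lam i - e| d with hi | hi
      · rw [hv _ (hbW i hi)]
        simp
      · exact mul_le_mul_of_nonneg_right (pow_le_pow_left₀ hd.le hi.le 2) (by positivity)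
    exact (pow_le_pow_iff_left₀ (by positivity) (by positivity) two_ne_zero).1 h
  · intro u hu
    let c : Fin n → ℂ := fun i => if d < |lam i - e| then ((d / (lam i - e) : ℝ) : ℂ) *
      inner ℂ (b i) u else 0
    let v : E := ∑ i, c i • b i
    have hvi : ∀ i, inner ℂ (b i) v = c i := by
      intro i
      change inner ℂ (b i) (∑ j, c j • b j) = c i
      rw [inner_sum, Finset.sum_eq_single i]
      · rw [inner_smul_right, inner_self_eq_norm_sq_to_K, b.orthonormal.1 i]
        simp
      · intro j _ hj
        rw [inner_smul_right, b.orthonormal.2 (Ne.symm hj), mul_zero]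
      · intro h
        exact absurd (Finset.mem_univ i) h
    refine ⟨v, ?_, ?_, ?_⟩
    · intro w hw
      have h : inner ℂ w v = ∑ i, inner ℂ w (b i) * inner ℂ (b i) v :=
        (b.sum_inner_mul_inner w v).symm
      rw [h]
      refine Finset.sum_eq_zero fun i _ => ?_
      rcases le_or_gt |lam i - e| d with hi | hi
      · rw [hvi]
        simp only [c]
        rw [if_neg (not_lt.2 hi), mul_zero]
      · have h1 : inner ℂ (b i) w = 0 := hw i hi
        rw [← inner_conj_symm, h1, map_zero, zero_mul]
    · have h : ‖v‖ ^ 2 ≤ ‖u‖ ^ 2 := by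
        rw [← b.sum_sq_norm_inner_right, ← b.sum_sq_norm_inner_right u]
        refine Finset.sum_le_sum fun i _ => ?_
        rw [hvi]
        simp only [c]
        split_ifs with hi
        · rw [norm_mul, mul_pow, Complex.norm_real, Real.norm_eq_abs, abs_div, abs_of_pos hd]
          have h1 : d / |lam i - e| ≤ 1 := (div_le_one (hd.trans hi)).2 hi.le
          have h2 : (d / |lam i - e|) ^ 2 ≤ 1 := pow_le_one₀ (by positivity) h1
          exact mul_le_of_le_one_left (by positivity) h2
        · rw [norm_zero, zero_pow two_ne_zero]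
          positivity
      exact (pow_le_pow_iff_left₀ (norm_nonneg _) (norm_nonneg _) two_ne_zero).1 h
    · refine hext _ _ fun i => ?_
      rw [hc, hvi, inner_smul_right]
      simp only [c]
      split_ifs with hi
      · have h0 : lam i - e ≠ 0 := by
          intro h0
          rw [h0, abs_zero] at hi
          linarith
        have h1 : ((lam i - e : ℝ) : ℂ) * ((d / (lam i - e) : ℝ) : ℂ) = (d : ℂ) := by
          rw [← Complex.ofReal_mul]
          congr 1
          field_simp
        rw [← mul_assoc, h1]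
      · rw [mul_zero, hu _ (hbW i (not_lt.1 hi)), mul_zero]

/-- chains of resolvents, and the projection of the source -/
theorem pf_T_CHR : T_CHR := by
  intro E _ _ _ H e d W hd hW q hq
  have hO : ∀ x, (∀ w ∈ W, inner ℂ w x = 0) ↔ x ∈ Wᗮ := fun x =>
    (Submodule.mem_orthogonal W x).symm
  set b : E := W.starProjection q with hb
  have hsub : q - b = Wᗮ.starProjection q := (W.starProjection_orthogonal_val q).symm
  have h0 : ∀ w ∈ W, inner ℂ w (q - b) = 0 := by
    rw [hO, hsub]
    exact Wᗮ.starProjection_apply_mem q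
  have h1 : ‖q - b‖ ≤ 1 := by
    rw [hsub]
    exact (Wᗮ.norm_starProjection_apply_le q).trans hq
  choose! f hf1 hf2 hf3 using hW.res
  let v : ℕ → E := fun i => Nat.rec (f (q - b)) (fun _ x => f x) i
  have hv0 : v 0 = f (q - b) := rfl
  have hvs : ∀ i, v (i + 1) = f (v i) := fun i => rfl
  have hv : ∀ i, (∀ w ∈ W, inner ℂ w (v i) = 0) ∧ ‖v i‖ ≤ 1 := by
    intro i
    induction i with
    | zero =>
      rw [hv0]
      exact ⟨hf1 _ h0, (hf2 _ h0).trans h1⟩
    | succ i ih =>
      rw [hvs]
      exact ⟨hf1 _ ih.1, (hf2 _ ih.1).trans ih.2⟩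
  refine ⟨b, v, W.starProjection_apply_mem q, (W.norm_starProjection_apply_le q).trans hq, h0, h1,
    fun i => (hv i).2, ?_, ?_⟩
  · rw [hv0]
    exact hf3 _ h0
  · intro i
    rw [hvs]
    exact hf3 _ (hv i).1

end Pool.Agent.H6.BA
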